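import Pool.Agent.Y947.RL.Stm

/-!
# Project RL: the product over a relation is at least one (job NRM)
-/

set_option autoImplicit false

open Finset Polynomial Module Pool.Agent.H388SL Pool.Agent.Y947.DL Pool.Agent.Y947.RL

namespace Pool.Agent.Y722.RL

theorem sp_map {A B : Type*} [CommRing A] [CommRing B] (f : A →+* B) (ω : A) (F : ℤ[X][X]) :
    (sp ω F).map f = sp (f ω) F := by
  unfold sp
  rw [Polynomial.map_map]
  congr 1
  apply Polynomial.ringHom_ext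
  · intro a
    simp
  · simp

theorem eval_sp_map {A B : Type*} [CommRing A] [CommRing B] (f : A →+* B) (ω β : A)
    (F : ℤ[X][X]) : (sp (f ω) F).eval (f β) = f ((sp ω F).eval β) := by
  rw [← sp_map, Polynomial.eval_map, Polynomial.eval₂_at_apply]

theorem integral_eval {K : Type} [Field K] [NumberField K] {ω β : K} (hω : IsIntegral ℤ ω)
    (hβ : IsIntegral ℤ β) (F : ℤ[X][X]) : IsIntegral ℤ ((sp ω F).eval β) := by
  have h := eval_sp_map (algebraMap (integralClosure ℤ K) K) ⟨ω, hω⟩ ⟨β, hβ⟩ F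
  have h1 : algebraMap (integralClosure ℤ K) K ⟨ω, hω⟩ = ω := rfl
  have h2 : algebraMap (integralClosure ℤ K) K ⟨β, hβ⟩ = β := rfl
  rw [h1, h2] at h
  rw [h]
  exact ((sp (⟨ω, hω⟩ : integralClosure ℤ K) F).eval ⟨β, hβ⟩).2

theorem nrm : S_J0 → S_TR → S_NRM := by
  intro hJ hT K _ _ m ζ hm hζ β γ hβ hγ s hs hne
  classical
  obtain ⟨F, -, hFs⟩ := hJ K m ζ hm hζ γ hγ
  obtain ⟨hT1, hT2, -⟩ := hT K m ζ hm hζ
  have hζi : IsIntegral ℤ (ζ ^ s) := (hζ.isIntegral hm).pow s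
  set x : K := (sp (ζ ^ s) F).eval β with hx
  have hxi : IsIntegral ℤ x := integral_eval hζi hβ F
  have hσ : ∀ σ : K →ₐ[ℚ] ℂ, σ x = ∏ τ ∈ cls ζ ((σ ζ) ^ s), (σ β - τ γ) := by
    intro σ
    obtain ⟨σ', hσ'⟩ := hT1 σ s hs
    have h1 := eval_sp_map (σ : K →+* ℂ) (ζ ^ s) β F
    have h2 : (σ : K →+* ℂ) (ζ ^ s) = σ' ζ := by
      rw [hσ']
      simp
    rw [h2, hFs σ', hσ'] at h1
    have h3 : (σ : K →+* ℂ) x = σ x := rfl
    rw [← hx, h3] at h1
    rw [← h1, Polynomial.eval_prod]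
    refine Finset.prod_congr rfl fun τ _ => ?_
    simp
  have hx0 : x ≠ 0 := by
    intro h0
    obtain ⟨ω, hω⟩ : ∃ ω : ℂ, IsPrimitiveRoot ω m := ⟨_, Complex.isPrimitiveRoot_exp m hm.ne'⟩
    obtain ⟨σ, -⟩ := hT2 ω hω
    have h1 := hσ σ
    rw [h0, map_zero] at h1
    obtain ⟨τ, hτ, h2⟩ := Finset.prod_eq_zero_iff.1 h1.symm
    exact hne σ τ hτ (sub_eq_zero.1 h2)
  have h1 := one_le_prod_norm hxi hx0
  refine h1.trans (le_of_eq ?_)
  refine Finset.prod_congr rfl fun σ _ => ?_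
  rw [hσ σ, norm_prod]

end Pool.Agent.Y722.RL
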